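import Mathlib

/-!
# Numerical lemmas for the Main Lemma of the Lovász–Simonovits project (all `r`)

Section 7 of `/team-store/LSr_full_proof_h72.md`.  All variables are integers;
`D = M + X = Y + e` (`e` is `eps`), `Z = e - rho - mm`, `q = mm + (1 - X) * D - Y - rho`,
`J = k + 1 - D`, `rm = max (-rho) 0`.
-/

namespace Pool.Agent.Helper21.LSR

/-- the numerical data of the Main Lemma at the maximising vertex -/
structure ND (k M X D Y e rho rm mm Z q : ℤ) : Prop where
  hk : 1 ≤ k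
  hD : D = M + X
  hDe : D = Y + e
  hX : X ≤ 1
  hrm : rm = max (-rho) 0
  hY : 1 + rm ≤ Y
  he : 1 ≤ e
  hZ : Z = e - rho - mm
  hZ1 : 1 + rm ≤ Z
  hmm : 1 ≤ mm
  hq : q = mm + (1 - X) * D - Y - rho
  hq0 : 0 ≤ q
  hJq : k + 1 - D ≤ q
  hcase : (1 ≤ rho ∧ M ≤ k) ∨ (rho ≤ 0 ∧ M ≤ k - 1)

variable {k M X D Y e rho rm mm Z q : ℤ}

lemma rm_nonneg (h : rm = max (-rho) 0) : 0 ≤ rm := h ▸ le_max_right _ _

/-- the two cases, with all bounds that are linear -/
lemma ND.cases (h : ND k M X D Y e rho rm mm Z q) :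
    (rm = 0 ∧ 1 ≤ rho ∧ Z ≤ e - 2 ∧ D ≤ k + 1 ∧ 3 ≤ e ∧ M ≤ k) ∨
    (rho = -rm ∧ 0 ≤ rm ∧ Z ≤ e + rm - 1 ∧ D ≤ k ∧ 2 ≤ e ∧ M ≤ k - 1) := by
  obtain ⟨hk, hD, hDe, hX, hrm, hY, he, hZ, hZ1, hmm, hq, hq0, hJq, hc⟩ := h
  rcases hc with ⟨h1, h2⟩ | ⟨h1, h2⟩
  · left
    have : rm = 0 := by rw [hrm]; exact max_eq_right (by omega)
    subst this
    refine ⟨rfl, h1, ?_, ?_, ?_, h2⟩ <;> omega
  · right
    have : rm = -rho := by rw [hrm]; exact max_eq_left (by omega)
    refine ⟨by omega, by omega, ?_, ?_, ?_, h2⟩ <;> omega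

/-- `Y * Z - rm * D ≤ Y * (e - 1)` -/
lemma ND.base (h : ND k M X D Y e rho rm mm Z q) : Y * Z - rm * D ≤ Y * (e - 1) := by
  have hY := h.hY
  have hDe := h.hDe
  rcases h.cases with ⟨h1, h2, h3, h4, h5, h6⟩ | ⟨h1, h2, h3, h4, h5, h6⟩
  · subst h1
    nlinarith
  · subst hDe
    nlinarith [mul_nonneg (show (0:ℤ) ≤ Y by linarith) (show (0:ℤ) ≤ e + rm - 1 - Z by linarith),
      mul_nonneg h2 (show (0:ℤ) ≤ e by linarith)]

/-- (far1) -/
lemma far1 (h : ND k M X D Y e rho rm mm Z q) {Du : ℤ} (hu : M + 2 ≤ 2 * Du) :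
    0 ≤ (k + 1) * (Y * Du - Y * Z + rm * D) + k * (Du - 1) * D := by
  have hb := h.base
  have hk := h.hk
  have hY1 : 1 ≤ Y := by have := h.hY; have := rm_nonneg h.hrm; linarith
  have he : 2 ≤ e := by rcases h.cases with h | h <;> omega
  have hu' : D + 1 ≤ 2 * Du := by have := h.hX; have := h.hD; omega
  have hDe := h.hDe
  have hD0 : 0 ≤ D := by linarith
  have h1 : 0 ≤ (k + 1) * (Y * (e - 1) - (Y * Z - rm * D)) := by
    apply mul_nonneg <;> linarith
  have h2 : 0 ≤ (k + 1) * Y * (2 * Du - (D + 1)) := by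
    apply mul_nonneg
    · apply mul_nonneg <;> linarith
    · linarith
  have h3 : 0 ≤ k * D * (2 * Du - (D + 1)) := by
    apply mul_nonneg
    · apply mul_nonneg <;> linarith
    · linarith
  -- `2 * goal ≥ (k+1) * Y * (D + 1 - 2 * (e - 1)) + k * D * (D - 1)`
  have h4 : 0 ≤ (k + 1) * Y * (D + 1 - 2 * (e - 1)) + k * D * (D - 1) := by
    subst hDe
    have h5 : 0 ≤ (k - 1) * (Y * (Y + e + 1 - 2 * (e - 1)) + (Y + e) * (Y + e - 1)) := by
      apply mul_nonneg (by linarith)
      nlinarith [sq_nonneg (Y - e), mul_pos (show (0:ℤ) < Y by linarith) (show (0:ℤ) < e by linarith)]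
    have h6 : 0 ≤ 2 * Y * (Y + e + 1 - 2 * (e - 1)) + (Y + e) * (Y + e - 1) := by
      nlinarith
    nlinarith
  nlinarith

/-- (far2) -/
lemma far2 (h : ND k M X D Y e rho rm mm Z q) {Du : ℤ} (hu : M + 1 ≤ Du) :
    0 ≤ (k + 1) * (Y * Du - Y * Z + rm * D) + k * (Du - 2) * D := by
  have hb := h.base
  have hk := h.hk
  have hY1 : 1 ≤ Y := by have := h.hY; have := rm_nonneg h.hrm; linarith
  have he : 2 ≤ e := by rcases h.cases with h | h <;> omega
  have hu' : D ≤ Du := by have := h.hX; have := h.hD; omega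
  have hDe := h.hDe
  have h1 : 0 ≤ (k + 1) * (Y * Du - Y * Z + rm * D) := by
    apply mul_nonneg (by linarith)
    nlinarith
  have h2 : 0 ≤ k * (Du - 2) * D := by
    apply mul_nonneg
    · apply mul_nonneg <;> linarith
    · linarith
  linarith

/-- (c3) -/
lemma c3 (h : ND k M X D Y e rho rm mm Z q) :
    (k + 1) * (Y * Z - rm * D) ≤ k * D * e := by
  have hb := h.base
  have hk := h.hk
  have hY1 : 1 ≤ Y := by have := h.hY; have := rm_nonneg h.hrm; linarith
  have he : 2 ≤ e := by rcases h.cases with h | h <;> omega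
  have hDk : D ≤ k + 1 := by rcases h.cases with h | h <;> omega
  have hDe := h.hDe
  have h1 : (k + 1) * (Y * Z - rm * D) ≤ (k + 1) * (Y * (e - 1)) :=
    mul_le_mul_of_nonneg_left hb (by linarith)
  have h2 : 0 ≤ Y * (k + 1 - e) := by apply mul_nonneg <;> linarith
  have h3 : 0 ≤ k * e * e := by
    apply mul_nonneg
    · apply mul_nonneg <;> linarith
    · linarith
  subst hDe
  nlinarith

/-- the version of (c3) that is used: `C3 ≤ e - 1` -/
lemma c3' (h : ND k M X D Y e rho rm mm Z q) {C : ℤ}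
    (hC : k * D * C < (k + 1) * (Y * Z - rm * D)) : C ≤ e - 1 := by
  have h1 := c3 h
  have hk := h.hk
  have hD : 0 < D := by
    have := h.hY; have := rm_nonneg h.hrm; have := h.hDe; have := h.he; linarith
  have h2 : k * D * C < k * D * e := by linarith
  have := lt_of_mul_lt_mul_left h2 (by positivity)
  linarith

/-- (x-1) -/
lemma xm1 (h : ND k M X D Y e rho rm mm Z q)
    (hG : 0 < k * X * Y * D + (2 * k + 3) * Y * Z - (3 * k + 3) * rm * D) : -1 ≤ X := by
  by_contra hX
  have hX : X ≤ -2 := by omega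
  have hb := h.base
  have hk := h.hk
  have hrm := rm_nonneg h.hrm
  have hY1 : 1 ≤ Y := by have := h.hY; linarith
  have he : 2 ≤ e := by rcases h.cases with h | h <;> omega
  have hDk : D ≤ k - 2 := by rcases h.cases with h' | h' <;> have := h.hD <;> omega
  have hDe := h.hDe
  have h1 : 0 ≤ k * Y * D * (-2 - X) := by
    apply mul_nonneg _ (by linarith)
    apply mul_nonneg
    · apply mul_nonneg <;> linarith
    · linarith
  have h2 : (2 * k + 3) * (Y * Z - rm * D) ≤ (2 * k + 3) * (Y * (e - 1)) :=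
    mul_le_mul_of_nonneg_left hb (by linarith)
  have h3 : 0 ≤ k * rm * D := by
    apply mul_nonneg
    · apply mul_nonneg <;> linarith
    · linarith
  have h4 : 0 ≤ Y * (2 * k * D - (2 * k + 3) * (e - 1)) := by
    apply mul_nonneg (by linarith)
    nlinarith
  nlinarith

/-- the inequality behind (nc4) and (h3) -/
lemma star (h : ND k M X D Y e rho rm mm Z q) :
    (2 * k + 3) * Y * Z ≤ k * D * (e + 1 + 2 * rho + Z) + (3 * k + 3) * rm * D := by
  have hk := h.hk
  have hrm := rm_nonneg h.hrm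
  have hY1 : 1 ≤ Y := by have := h.hY; linarith
  have hZ0 : 1 ≤ Z := by have := h.hZ1; linarith
  have hDe := h.hDe
  rcases h.cases with ⟨h1, h2, h3, h4, h5, h6⟩ | ⟨h1, h2, h3, h4, h5, h6⟩
  · subst h1
    subst hDe
    have a1 : 0 ≤ k * (Y + e) * (e - 2 - Z) := by
      apply mul_nonneg _ (by linarith)
      apply mul_nonneg <;> linarith
    have a2 : 0 ≤ k * (Y + e) * (rho - 1) := by
      apply mul_nonneg _ (by linarith)
      apply mul_nonneg <;> linarith
    have a3 : 0 ≤ Z * (2 * k * e - 3 * Y) := by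
      apply mul_nonneg (by linarith)
      nlinarith
    have a4 : 0 ≤ k * (Y + e) := by apply mul_nonneg <;> linarith
    nlinarith
  · subst hDe
    subst h1
    have a1 : 0 ≤ k * (Y + e) * (e + rm - 1 - Z) := by
      apply mul_nonneg _ (by linarith)
      apply mul_nonneg <;> linarith
    have a3 : 0 ≤ Z * (2 * k * e - 3 * Y) := by
      apply mul_nonneg (by linarith)
      nlinarith
    have a4 : 0 ≤ k * (Y + e) := by apply mul_nonneg <;> linarith
    have a5 : 0 ≤ rm * (Y + e) := by apply mul_nonneg <;> linarith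
    nlinarith

/-- (nc4) -/
lemma nc4 (h : ND k M X D Y e rho rm mm Z q) (hX : -1 ≤ X) {G : ℤ}
    (hG : k * D * G < k * X * Y * D + (2 * k + 3) * Y * Z - (3 * k + 3) * rm * D) :
    k + 1 - D + G ≤ 4 * e := by
  have hs := star h
  have hk := h.hk
  have hrm := rm_nonneg h.hrm
  have hY1 : 1 ≤ Y := by have := h.hY; linarith
  have he := h.he
  have hDe := h.hDe
  have hD : 0 < D := by linarith
  have hkD : 0 < k * D := by positivity
  have hJ : k * D * (k + 1 - D) ≤ k * D * q := mul_le_mul_of_nonneg_left h.hJq hkD.le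
  have hq : q = e - 2 * rho - Z + (1 - X) * D - Y := by rw [h.hq]; have := h.hZ; linarith
  have hxe : 0 ≤ k * D * ((1 + X) * e) := by
    apply mul_nonneg hkD.le
    apply mul_nonneg <;> linarith
  have : k * D * (k + 1 - D + G) < k * D * (4 * e + 1) := by
    rw [hq] at hJ
    subst hDe
    nlinarith
  have := lt_of_mul_lt_mul_left this hkD.le
  linarith

/-- (h3) -/
lemma h3 (h : ND k M X D Y e rho rm mm Z q) (hX : X = 1) {G : ℤ}
    (hG : k * D * G < k * Y * D + (2 * k + 3) * Y * Z - (3 * k + 3) * rm * D) :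
    k + 1 - D + G ≤ 2 * e := by
  have hs := star h
  have hk := h.hk
  have hrm := rm_nonneg h.hrm
  have hY1 : 1 ≤ Y := by have := h.hY; linarith
  have he := h.he
  have hDe := h.hDe
  have hD : 0 < D := by linarith
  have hkD : 0 < k * D := by positivity
  have hJ : k * D * (k + 1 - D) ≤ k * D * q := mul_le_mul_of_nonneg_left h.hJq hkD.le
  have hq : q = e - 2 * rho - Z - Y := by rw [h.hq, hX]; have := h.hZ; linarith
  have : k * D * (k + 1 - D + G) < k * D * (2 * e + 1) := by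
    rw [hq] at hJ
    nlinarith
  have := lt_of_mul_lt_mul_left this hkD.le
  linarith

/-- bound for `Z` when `X = 1` -/
lemma ND.Z_one (h : ND k M X D Y e rho rm mm Z q) (hX : X = 1) :
    (rm = 0 ∧ 1 ≤ rho ∧ Z ≤ e - Y - 2 ∧ D ≤ k + 1 ∧ 3 ≤ e) ∨
    (rho = -rm ∧ 0 ≤ rm ∧ Z ≤ e - Y - 1 + 2 * rm ∧ D ≤ k ∧ 2 ≤ e) := by
  have hq := h.hq
  rw [hX] at hq
  have hq0 := h.hq0
  have hJq := h.hJq
  have hZ := h.hZ
  rcases h.cases with ⟨h1, h2, h3, h4, h5, h6⟩ | ⟨h1, h2, h3, h4, h5, h6⟩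
  · left
    refine ⟨h1, h2, ?_, h4, h5⟩
    omega
  · right
    refine ⟨h1, h2, ?_, h4, h5⟩
    omega

/-- (h1) -/
lemma h1 (h : ND k M X D Y e rho rm mm Z q) (hX : X = 1) :
    (2 * k + 3) * Y * Z - (3 * k + 3) * rm * D ≤ k * (e - 1) * D := by
  have hk := h.hk
  have hrm := rm_nonneg h.hrm
  have hYr := h.hY
  have hY1 : 1 ≤ Y := by linarith
  have hDe := h.hDe
  rcases h.Z_one hX with ⟨h1, h2, h3, h4, h5⟩ | ⟨h1, h2, h3, h4, h5⟩
  · subst h1
    subst hDe
    have a1 : 0 ≤ (2 * k + 3) * Y * (e - Y - 2 - Z) := by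
      apply mul_nonneg _ (by linarith)
      apply mul_nonneg <;> linarith
    have hk3 : 3 ≤ k := by linarith
    have a2 : 0 ≤ (k - 3) * ((Y + e) * (e - 1) - 2 * Y * (e - Y - 2)) := by
      apply mul_nonneg (by linarith)
      nlinarith [sq_nonneg (2 * e - Y - 1), mul_pos (show (0:ℤ) < Y by linarith) (show (0:ℤ) < Y by linarith)]
    have a3 : 0 ≤ 3 * ((Y + e) * (e - 1)) - 9 * Y * (e - Y - 2) := by
      nlinarith [sq_nonneg (2 * e - 2 * Y - 1), mul_pos (show (0:ℤ) < Y by linarith) (show (0:ℤ) < Y by linarith)]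
    nlinarith
  · subst hDe
    have a1 : 0 ≤ (2 * k + 3) * Y * (e - Y - 1 + 2 * rm - Z) := by
      apply mul_nonneg _ (by linarith)
      apply mul_nonneg <;> linarith
    have hk3 : 3 ≤ k := by linarith
    -- linear in `rm` between `0` and `Y - 1`
    have b0 : 0 ≤ k * (e - 1) * (Y + e) - (2 * k + 3) * Y * (e - Y - 1) := by
      have c1 : 0 ≤ (k - 3) * ((Y + e) * (e - 1) - 2 * Y * (e - Y - 1)) := by
        apply mul_nonneg (by linarith)
        nlinarith [sq_nonneg (2 * e - Y - 1), mul_pos (show (0:ℤ) < Y by linarith) (show (0:ℤ) < Y by linarith)]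
      have c2 : 0 ≤ 3 * ((Y + e) * (e - 1)) - 9 * Y * (e - Y - 1) := by
        nlinarith [sq_nonneg (2 * e - 2 * Y - 1), mul_pos (show (0:ℤ) < Y by linarith) (show (0:ℤ) < Y by linarith)]
      nlinarith
    have b1 : 0 ≤ k * (e - 1) * (Y + e) - (2 * k + 3) * Y * (Y + e - 3)
        + (3 * k + 3) * (Y - 1) * (Y + e) := by
      have : k * (e - 1) * (Y + e) - (2 * k + 3) * Y * (Y + e - 3)
        + (3 * k + 3) * (Y - 1) * (Y + e) =
          k * (Y + e) ^ 2 + (6 * k + 9) * Y - (4 * k + 3) * (Y + e) := by ring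
      rw [this]
      have hD2 : 3 ≤ Y + e := by linarith
      rcases le_or_gt 5 (Y + e) with hd | hd
      · have : 0 ≤ k * ((Y + e) * (Y + e - 5)) := by
          apply mul_nonneg (by linarith)
          apply mul_nonneg <;> linarith
        nlinarith [mul_nonneg (show (0:ℤ) ≤ k - 3 by linarith) (show (0:ℤ) ≤ Y + e by linarith)]
      · have : Y + e = 3 ∨ Y + e = 4 := by omega
        rcases this with h' | h' <;> rw [h'] <;> nlinarith
    rcases eq_or_lt_of_le hY1 with hY' | hY'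
    · have : rm = 0 := by linarith
      subst this
      nlinarith
    · have b2 : 0 ≤ (Y - 1 - rm) * (k * (e - 1) * (Y + e) - (2 * k + 3) * Y * (e - Y - 1)) := by
        apply mul_nonneg _ b0
        linarith
      have b3 : 0 ≤ rm * (k * (e - 1) * (Y + e) - (2 * k + 3) * Y * (Y + e - 3)
        + (3 * k + 3) * (Y - 1) * (Y + e)) := mul_nonneg hrm b1
      have b4 : 0 ≤ (Y - 1) * (k * (e - 1) * (Y + e) - (2 * k + 3) * Y * (e - Y - 1 + 2 * rm)
        + (3 * k + 3) * rm * (Y + e)) := by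
        have : (Y - 1) * (k * (e - 1) * (Y + e) - (2 * k + 3) * Y * (e - Y - 1 + 2 * rm)
          + (3 * k + 3) * rm * (Y + e)) =
          (Y - 1 - rm) * (k * (e - 1) * (Y + e) - (2 * k + 3) * Y * (e - Y - 1)) +
          rm * (k * (e - 1) * (Y + e) - (2 * k + 3) * Y * (Y + e - 3)
        + (3 * k + 3) * (Y - 1) * (Y + e)) := by ring
        rw [this]
        linarith
      have b5 := nonneg_of_mul_nonneg_right b4 (by linarith)
      nlinarith

/-- (h2): used as `G ≤ 2 * e - 1` -/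
lemma h2 (h : ND k M X D Y e rho rm mm Z q) (hX : X = 1) :
    k * Y * D + (2 * k + 3) * Y * Z - (3 * k + 3) * rm * D ≤ 2 * e * (k * D) := by
  have hk := h.hk
  have hrm := rm_nonneg h.hrm
  have hYr := h.hY
  have hY1 : 1 ≤ Y := by linarith
  have hDe := h.hDe
  rcases h.Z_one hX with ⟨h1, h2, h3, h4, h5⟩ | ⟨h1, h2, h3, h4, h5⟩
  · subst h1
    subst hDe
    have a1 : 0 ≤ (2 * k + 3) * Y * (e - Y - 2 - Z) := by
      apply mul_nonneg _ (by linarith)
      apply mul_nonneg <;> linarith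
    have hk3 : 3 ≤ k := by linarith
    have a2 : 0 ≤ (k - 3) * (2 * e ^ 2 - Y * e + Y ^ 2 + 4 * Y) := by
      apply mul_nonneg (by linarith)
      nlinarith [sq_nonneg (2 * e - Y), mul_pos (show (0:ℤ) < Y by linarith) (show (0:ℤ) < Y by linarith)]
    have a3 : 0 ≤ 6 * e ^ 2 - 6 * Y * e + 6 * Y ^ 2 := by
      nlinarith [sq_nonneg (e - Y), mul_pos (show (0:ℤ) < Y by linarith) (show (0:ℤ) < Y by linarith)]
    nlinarith
  · subst hDe
    have a1 : 0 ≤ (2 * k + 3) * Y * (e - Y - 1 + 2 * rm - Z) := by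
      apply mul_nonneg _ (by linarith)
      apply mul_nonneg <;> linarith
    have hk3 : 3 ≤ k := by linarith
    have b0 : 0 ≤ 2 * e * (k * (Y + e)) - k * Y * (Y + e) - (2 * k + 3) * Y * (e - Y - 1) := by
      have c1 : 0 ≤ (k - 3) * (2 * e ^ 2 - Y * e + Y ^ 2 + 2 * Y) := by
        apply mul_nonneg (by linarith)
        nlinarith [sq_nonneg (2 * e - Y), mul_pos (show (0:ℤ) < Y by linarith) (show (0:ℤ) < Y by linarith)]
      have c2 : 0 ≤ 6 * e ^ 2 - 6 * Y * e + 6 * Y ^ 2 := by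
        nlinarith [sq_nonneg (e - Y), mul_pos (show (0:ℤ) < Y by linarith) (show (0:ℤ) < Y by linarith)]
      nlinarith
    have b1 : 0 ≤ 2 * e * (k * (Y + e)) - k * Y * (Y + e) - (2 * k + 3) * Y * (Y + e - 3)
        + (3 * k + 3) * (Y - 1) * (Y + e) := by
      have : 2 * e * (k * (Y + e)) - k * Y * (Y + e) - (2 * k + 3) * Y * (Y + e - 3)
        + (3 * k + 3) * (Y - 1) * (Y + e) =
          (Y + e) * (2 * k * e - 3 * k - 3) + (6 * k + 9) * Y := by ring
      rw [this]
      have : 0 ≤ (Y + e) * (2 * k * e - 3 * k - 3) := by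
        apply mul_nonneg (by linarith)
        nlinarith
      nlinarith
    rcases eq_or_lt_of_le hY1 with hY' | hY'
    · have : rm = 0 := by linarith
      subst this
      nlinarith
    · have b2 : 0 ≤ (Y - 1 - rm) * (2 * e * (k * (Y + e)) - k * Y * (Y + e)
          - (2 * k + 3) * Y * (e - Y - 1)) := by
        apply mul_nonneg _ b0
        linarith
      have b3 : 0 ≤ rm * (2 * e * (k * (Y + e)) - k * Y * (Y + e) - (2 * k + 3) * Y * (Y + e - 3)
        + (3 * k + 3) * (Y - 1) * (Y + e)) := mul_nonneg hrm b1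
      have b4 : 0 ≤ (Y - 1) * (2 * e * (k * (Y + e)) - k * Y * (Y + e)
          - (2 * k + 3) * Y * (e - Y - 1 + 2 * rm) + (3 * k + 3) * rm * (Y + e)) := by
        have : (Y - 1) * (2 * e * (k * (Y + e)) - k * Y * (Y + e)
          - (2 * k + 3) * Y * (e - Y - 1 + 2 * rm) + (3 * k + 3) * rm * (Y + e)) =
          (Y - 1 - rm) * (2 * e * (k * (Y + e)) - k * Y * (Y + e)
          - (2 * k + 3) * Y * (e - Y - 1)) +
          rm * (2 * e * (k * (Y + e)) - k * Y * (Y + e) - (2 * k + 3) * Y * (Y + e - 3)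
        + (3 * k + 3) * (Y - 1) * (Y + e)) := by ring
        rw [this]
        linarith
      have b5 := nonneg_of_mul_nonneg_right b4 (by linarith)
      nlinarith

/-- the version of (h2) that is used -/
lemma h2' (h : ND k M X D Y e rho rm mm Z q) (hX : X = 1) {G : ℤ}
    (hG : k * D * G < k * Y * D + (2 * k + 3) * Y * Z - (3 * k + 3) * rm * D) :
    G ≤ 2 * e - 1 := by
  have h1 := h2 h hX
  have hk := h.hk
  have hD : 0 < D := by
    have := h.hY; have := rm_nonneg h.hrm; have := h.hDe; have := h.he; linarith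
  have h2 : k * D * G < k * D * (2 * e) := by linarith
  have := lt_of_mul_lt_mul_left h2 (by positivity)
  linarith

/-- (mm ≤ k) -/
lemma mmk (h : ND k M X D Y e rho rm mm Z q) : mm ≤ k := by
  have hZ := h.hZ
  have hZ1 := h.hZ1
  have hDe := h.hDe
  have hY := h.hY
  have hrm := rm_nonneg h.hrm
  rcases h.cases with ⟨h1, h2, h3, h4, h5, h6⟩ | ⟨h1, h2, h3, h4, h5, h6⟩ <;> omega

/-- (F) -/
lemma F (h : ND k M X D Y e rho rm mm Z q) :
    k * X * Y * D + 3 * (k + 1) * Y * Z - (4 * k + 3) * rm * D ≤ k * (D - 1) * D := by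
  have hk := h.hk
  have hrm := rm_nonneg h.hrm
  have hYr := h.hY
  have hY1 : 1 ≤ Y := by linarith
  have hDe := h.hDe
  have hX1 := h.hX
  rcases lt_or_ge X 1 with hX | hX
  · -- `X ≤ 0`
    have hX0 : X ≤ 0 := by omega
    have hD1 : 0 ≤ D := by have := h.he; linarith
    have a0 : 0 ≤ k * Y * D * (-X) := by
      apply mul_nonneg _ (by linarith)
      apply mul_nonneg
      · apply mul_nonneg <;> linarith
      · linarith
    have hb := h.base
    have hDk : D ≤ k + 1 := by rcases h.cases with h | h <;> omega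
    have a1 : 3 * (k + 1) * (Y * Z - rm * D) ≤ 3 * (k + 1) * (Y * (e - 1)) :=
      mul_le_mul_of_nonneg_left hb (by linarith)
    have a2 : 0 ≤ k * (rm * D) := by
      apply mul_nonneg (by linarith)
      apply mul_nonneg <;> linarith
    have a3 : 4 * (Y * (e - 1)) ≤ (D - 1) ^ 2 := by
      subst hDe
      nlinarith [sq_nonneg (Y - e + 1)]
    have a4 : 3 * (k + 1) * (D - 1) ^ 2 ≤ 4 * (k * (D - 1) * D) := by
      have hD2 : 1 ≤ D := by have := h.he; linarith
      have b1 : 0 ≤ (D - 1) * (k + 1 - D) := by apply mul_nonneg <;> linarith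
      have b2 : 0 ≤ (D - 1) * (4 * k * D - 3 * (k + 1) * (D - 1)) := by
        apply mul_nonneg (by linarith)
        nlinarith
      nlinarith
    have a5 : 3 * (k + 1) * (4 * (Y * (e - 1))) ≤ 3 * (k + 1) * (D - 1) ^ 2 :=
      mul_le_mul_of_nonneg_left a3 (by linarith)
    nlinarith
  · have hX : X = 1 := by omega
    subst hX
    rcases h.Z_one rfl with ⟨h1, h2, h3, h4, h5⟩ | ⟨h1, h2, h3, h4, h5⟩
    · subst h1
      have hZ0 := h.hZ1
      subst hDe
      have a1 : 0 ≤ 3 * (k + 1) * Y * (e - Y - 2 - Z) := by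
        apply mul_nonneg _ (by linarith)
        apply mul_nonneg <;> linarith
      -- `k [(e-Y)^2 + 2Y^2 + 5Y - e] ≥ 3 Y (e - Y - 2)`
      have a2 : 0 ≤ (k + 1 - (Y + e)) * ((e - Y) ^ 2 + 2 * Y ^ 2 + 5 * Y - e) := by
        apply mul_nonneg (by linarith)
        nlinarith [sq_nonneg (2 * e - 2 * Y - 1)]
      have a3 : 3 * Y * (e - Y - 2) ≤ (Y + e - 1) * ((e - Y) ^ 2 + 2 * Y ^ 2 + 5 * Y - e) := by
        obtain ⟨t, rfl⟩ : ∃ t, e = Y + 3 + t := ⟨e - Y - 3, by ring⟩
        have ht : 0 ≤ t := by linarith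
        have : (Y + (Y + 3 + t) - 1) * ((Y + 3 + t - Y) ^ 2 + 2 * Y ^ 2 + 5 * Y - (Y + 3 + t))
          - 3 * Y * (Y + 3 + t - Y - 2) =
          4 * Y ^ 3 + 12 * Y ^ 2 + 2 * Y ^ 2 * t + 2 * Y * t ^ 2 + 11 * Y * t + 17 * Y
            + t ^ 3 + 7 * t ^ 2 + 16 * t + 12 := by ring
        have h0 : 0 ≤ 4 * Y ^ 3 + 12 * Y ^ 2 + 2 * Y ^ 2 * t + 2 * Y * t ^ 2 + 11 * Y * t + 17 * Y
            + t ^ 3 + 7 * t ^ 2 + 16 * t + 12 := by positivity
        linarith
      nlinarith
    · have hZ0 := h.hZ1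
      subst hDe
      have a1 : 0 ≤ 3 * (k + 1) * Y * (e - Y - 1 + 2 * rm - Z) := by
        apply mul_nonneg _ (by linarith)
        apply mul_nonneg <;> linarith
      have hk3 : 3 ≤ k := by linarith
      have b0 : 0 ≤ k * (Y + e - 1) * (Y + e) - k * Y * (Y + e)
          - 3 * (k + 1) * Y * (e - Y - 1) := by
        have c1 : 0 ≤ (k - (Y + e)) * ((e - Y) * (e - Y - 1) + 2 * Y ^ 2 + Y) := by
          apply mul_nonneg (by linarith)
          rcases le_or_gt 1 (e - Y) with ht | ht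
          · have : 0 ≤ (e - Y) * (e - Y - 1) := by apply mul_nonneg <;> linarith
            positivity
          · have : 0 ≤ (Y - e) * (Y - e + 1) := by apply mul_nonneg <;> linarith
            nlinarith
        have c2 : 3 * Y * (e - Y - 1) ≤
            (Y + e) * ((e - Y) * (e - Y - 1) + 2 * Y ^ 2 + Y) := by
          rcases le_or_gt 1 (e - Y) with ht | ht
          · obtain ⟨t, rfl⟩ : ∃ t, e = Y + 1 + t := ⟨e - Y - 1, by ring⟩
            have ht : 0 ≤ t := by linarith
            have : (Y + (Y + 1 + t)) * ((Y + 1 + t - Y) * (Y + 1 + t - Y - 1) + 2 * Y ^ 2 + Y)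
              - 3 * Y * (Y + 1 + t - Y - 1) =
              4 * Y ^ 3 + 4 * Y ^ 2 + 2 * Y ^ 2 * t + Y + (2 * t ^ 2) * Y
                + t ^ 3 + 2 * t ^ 2 + t := by ring
            have h0 : 0 ≤ 4 * Y ^ 3 + 4 * Y ^ 2 + 2 * Y ^ 2 * t + Y + (2 * t ^ 2) * Y
                + t ^ 3 + 2 * t ^ 2 + t := by positivity
            linarith
          · have h1 : 3 * Y * (e - Y - 1) ≤ 0 := by
              have : 0 ≤ 3 * Y * (Y + 1 - e) := by
                apply mul_nonneg <;> linarith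
              linarith
            have h2 : 0 ≤ (Y - e) * (Y - e + 1) := by apply mul_nonneg <;> linarith
            have h3 : 0 ≤ (Y + e) * ((e - Y) * (e - Y - 1) + 2 * Y ^ 2 + Y) := by
              apply mul_nonneg (by linarith)
              nlinarith
            linarith
        nlinarith
      have b1 : 0 ≤ k * (Y + e - 1) * (Y + e) - k * Y * (Y + e)
          - 3 * (k + 1) * Y * (Y + e - 3) + (4 * k + 3) * (Y - 1) * (Y + e) := by
        have : k * (Y + e - 1) * (Y + e) - k * Y * (Y + e)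
          - 3 * (k + 1) * Y * (Y + e - 3) + (4 * k + 3) * (Y - 1) * (Y + e) =
            k * (Y + e) ^ 2 + 9 * (k + 1) * Y - (5 * k + 3) * (Y + e) := by ring
        rw [this]
        have hD2 : 3 ≤ Y + e := by linarith
        rcases le_or_gt 6 (Y + e) with hd | hd
        · have : 0 ≤ k * ((Y + e) * (Y + e - 6)) := by
            apply mul_nonneg (by linarith)
            apply mul_nonneg <;> linarith
          nlinarith [mul_nonneg (show (0:ℤ) ≤ k - 3 by linarith) (show (0:ℤ) ≤ Y + e by linarith)]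
        · have : Y + e = 3 ∨ Y + e = 4 ∨ Y + e = 5 := by omega
          rcases this with h' | h' | h' <;> rw [h'] <;> nlinarith
      rcases eq_or_lt_of_le hY1 with hY' | hY'
      · have : rm = 0 := by linarith
        subst this
        nlinarith
      · have b2 : 0 ≤ (Y - 1 - rm) * (k * (Y + e - 1) * (Y + e) - k * Y * (Y + e)
          - 3 * (k + 1) * Y * (e - Y - 1)) := by
          apply mul_nonneg _ b0
          linarith
        have b3 : 0 ≤ rm * (k * (Y + e - 1) * (Y + e) - k * Y * (Y + e)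
          - 3 * (k + 1) * Y * (Y + e - 3) + (4 * k + 3) * (Y - 1) * (Y + e)) :=
          mul_nonneg hrm b1
        have b4 : 0 ≤ (Y - 1) * (k * (Y + e - 1) * (Y + e) - k * Y * (Y + e)
          - 3 * (k + 1) * Y * (e - Y - 1 + 2 * rm) + (4 * k + 3) * rm * (Y + e)) := by
          have : (Y - 1) * (k * (Y + e - 1) * (Y + e) - k * Y * (Y + e)
            - 3 * (k + 1) * Y * (e - Y - 1 + 2 * rm) + (4 * k + 3) * rm * (Y + e)) =
            (Y - 1 - rm) * (k * (Y + e - 1) * (Y + e) - k * Y * (Y + e)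
              - 3 * (k + 1) * Y * (e - Y - 1)) +
            rm * (k * (Y + e - 1) * (Y + e) - k * Y * (Y + e)
              - 3 * (k + 1) * Y * (Y + e - 3) + (4 * k + 3) * (Y - 1) * (Y + e)) := by ring
          rw [this]
          linarith
        have b5 := nonneg_of_mul_nonneg_right b4 (by linarith)
        nlinarith

end Pool.Agent.Helper21.LSR
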